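import Pool.Agent.Helper9.UP.StN

set_option autoImplicit false

/-! Project UP (helper9), module CR: short representatives of the cosets. -/

noncomputable section

namespace Pool.Agent.Helper16.UP

open Finset Polynomial NumberField Module
open Pool.Agent.Helper9.UP

theorem hCR (hS : StSV) : StCR := by
  intro K _ _ T hG I hI c
  obtain ⟨x, hxI, hx0, hx⟩ := hS K T hG I hI
  obtain ⟨α, hα, hb⟩ := hG
  have hd : 0 < dg K := finrank_pos
  haveI : Nonempty (Fin (dg K)) := ⟨⟨0, hd⟩⟩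
  -- linear independence
  have hv1 : LinearIndependent ℤ (fun i : Fin (dg K) => x * α ^ (i : ℕ)) := by
    have hf : Function.Injective (LinearMap.mulLeft ℤ x) := by
      intro a b hab
      simp only [LinearMap.mulLeft_apply] at hab
      exact mul_left_cancel₀ hx0 hab
    have := hα.map' (LinearMap.mulLeft ℤ x) (LinearMap.ker_eq_bot.2 hf)
    exact this
  have hv2 : LinearIndependent ℤ (fun i : Fin (dg K) => ((x * α ^ (i : ℕ) : 𝓞 K) : K)) := by
    have hf : Function.Injective ((algebraMap (𝓞 K) K).toAddMonoidHom.toIntLinearMap) := by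
      intro a b hab
      exact RingOfIntegers.coe_injective hab
    have := hv1.map' ((algebraMap (𝓞 K) K).toAddMonoidHom.toIntLinearMap)
      (LinearMap.ker_eq_bot.2 hf)
    exact this
  have hv3 : LinearIndependent ℚ (fun i : Fin (dg K) => ((x * α ^ (i : ℕ) : 𝓞 K) : K)) :=
    (LinearIndependent.iff_fractionRing ℤ ℚ).1 hv2
  let b := basisOfLinearIndependentOfCardEqFinrank hv3 (by rw [Fintype.card_fin]; rfl)
  have hbv : ∀ i, b i = ((x * α ^ (i : ℕ) : 𝓞 K) : K) := by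
    intro i
    simp [b]
  set t : Fin (dg K) → ℚ := fun i => b.repr (c : K) i with ht
  have hc : ∑ i, t i • ((x * α ^ (i : ℕ) : 𝓞 K) : K) = (c : K) := by
    have h1 := b.sum_repr (c : K)
    refine Eq.trans (sum_congr rfl fun i _ => ?_) h1
    rw [hbv]
  refine ⟨c - ∑ i, ((⌊t i⌋ : ℤ) : 𝓞 K) * (x * α ^ (i : ℕ)), ?_, ?_⟩
  · rw [sub_sub_cancel]
    refine Submodule.sum_mem _ fun i _ => ?_
    refine I.mul_mem_left _ (I.mul_mem_right _ hxI)
  · intro φ
    have hT0 : (0 : ℝ) ≤ T := by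
      have := hb φ 0 hd
      rw [pow_zero, mul_one] at this
      exact le_trans (Nat.cast_nonneg _) this
    have h2 : ((c - ∑ i, ((⌊t i⌋ : ℤ) : 𝓞 K) * (x * α ^ (i : ℕ)) : 𝓞 K) : K) =
        ∑ i, ((Int.fract (t i) : ℚ) : K) * ((x : K) * (α : K) ^ (i : ℕ)) := by
      show algebraMap (𝓞 K) K (c - ∑ i, ((⌊t i⌋ : ℤ) : 𝓞 K) * (x * α ^ (i : ℕ))) = _
      rw [map_sub, map_sum]
      have hc' : algebraMap (𝓞 K) K c = ∑ i, t i • ((x * α ^ (i : ℕ) : 𝓞 K) : K) := hc.symm
      rw [hc', ← sum_sub_distrib]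
      refine sum_congr rfl fun i _ => ?_
      have e1 : ((x * α ^ (i : ℕ) : 𝓞 K) : K) = (x : K) * (α : K) ^ (i : ℕ) := by
        show algebraMap (𝓞 K) K (x * α ^ (i : ℕ)) = _
        rw [map_mul, map_pow]
      have e2 : algebraMap (𝓞 K) K (((⌊t i⌋ : ℤ) : 𝓞 K) * (x * α ^ (i : ℕ))) =
          ((⌊t i⌋ : ℤ) : K) * ((x : K) * (α : K) ^ (i : ℕ)) := by
        rw [map_mul, map_intCast, map_mul, map_pow]
      rw [e2, e1, Algebra.smul_def, eq_ratCast]
      have h3 : ((Int.fract (t i) : ℚ) : K) = ((t i : ℚ) : K) - ((⌊t i⌋ : ℤ) : K) := by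
        unfold Int.fract
        push_cast
        ring
      rw [h3]
      ring
    rw [h2, map_sum]
    refine (norm_sum_le _ _).trans ?_
    have h4 : ∀ i : Fin (dg K), ‖φ (((Int.fract (t i) : ℚ) : K) * ((x : K) * (α : K) ^ (i : ℕ)))‖ ≤
        ‖φ (x : K)‖ * ‖φ (α : K)‖ ^ (i : ℕ) := by
      intro i
      rw [map_mul, map_mul, map_pow, map_ratCast, norm_mul, norm_mul, norm_pow]
      have h5 : ‖((Int.fract (t i) : ℚ) : ℂ)‖ ≤ 1 := by
        have h6 : ((Int.fract (t i) : ℚ) : ℂ) = (((Int.fract (t i) : ℚ) : ℝ) : ℂ) :=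
          (Complex.ofReal_ratCast _).symm
        rw [h6, Complex.norm_real, Real.norm_eq_abs, abs_of_nonneg]
        · exact_mod_cast (Int.fract_lt_one (t i)).le
        · exact_mod_cast Int.fract_nonneg (t i)
      calc ‖((Int.fract (t i) : ℚ) : ℂ)‖ * (‖φ (x : K)‖ * ‖φ (α : K)‖ ^ (i : ℕ)) ≤
          1 * (‖φ (x : K)‖ * ‖φ (α : K)‖ ^ (i : ℕ)) :=
            mul_le_mul_of_nonneg_right h5 (by positivity)
        _ = _ := one_mul _
    refine (sum_le_sum fun i _ => h4 i).trans ?_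
    rw [← mul_sum]
    have h7 : ∑ i : Fin (dg K), ‖φ (α : K)‖ ^ (i : ℕ) ≤ T := by
      have hd' : (0 : ℝ) < dg K := by exact_mod_cast hd
      have h8 : (dg K : ℝ) * ∑ i : Fin (dg K), ‖φ (α : K)‖ ^ (i : ℕ) ≤ dg K * T := by
        rw [mul_sum]
        refine (sum_le_sum fun (i : Fin (dg K)) _ => hb φ (i : ℕ) i.2).trans ?_
        simp
      exact le_of_mul_le_mul_left h8 hd'
    calc ‖φ (x : K)‖ * ∑ i : Fin (dg K), ‖φ (α : K)‖ ^ (i : ℕ)
        ≤ (T * nm K I ^ (1 / (dg K : ℝ))) * T := by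
          refine mul_le_mul (hx φ) h7 (by positivity) ?_
          exact le_trans (norm_nonneg _) (hx φ)
      _ = T ^ 2 * nm K I ^ (1 / (dg K : ℝ)) := by ring

end Pool.Agent.Helper16.UP
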