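import Pool.Agent.Helper9.UP.StC

/-!
# Project UP, module CU: the sieve weights and the upper bound sieve for one prime
-/

set_option autoImplicit false

noncomputable section

namespace Pool.Agent.Helper16.UP

open Finset Polynomial
open Pool.Agent.Helper9.UP

lemma cu_sqf (U : Finset ℕ) (hU : ∀ p ∈ U, p.Prime) : Squarefree (∏ p ∈ U, p) := by
  refine Finset.squarefree_prod_of_pairwise_isCoprime (fun p hp q hq hpq => ?_)
    fun p hp => (hU p hp).squarefree
  simp only [Function.onFun, ← Nat.coprime_iff_isRelPrime]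
  exact (Nat.coprime_primes (hU p hp) (hU q hq)).mpr hpq

lemma cu_dvd (U : Finset ℕ) (hU : ∀ p ∈ U, p.Prime) (n : ℕ) :
    (∏ p ∈ U, p) ∣ n ↔ ∀ p ∈ U, p ∣ n := by
  constructor
  · intro h p hp
    exact (Finset.dvd_prod_of_mem (fun p => p) hp).trans h
  · intro h
    exact Finset.prod_primes_dvd n (fun p hp => (hU p hp).prime) h

lemma cu_gf0 (f : ℤ[X]) (p : ℕ) : 0 ≤ gf f p := by
  unfold gf
  split
  · exact le_refl _
  · positivity

lemma cu_tw (F : Finset (Finset ℕ)) (n : ℕ) :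
    tw F n = ∑ T ∈ F, (-1 : ℝ) ^ T.card * (if ∀ p ∈ T, p ∣ n then 1 else 0) := by
  unfold tw
  refine Finset.sum_congr rfl fun T _ => ?_
  congr 1
  rw [Finset.prod_ite_zero]
  simp

lemma cu_cn (hN : StCN) (hP : StPO) (Λ : ℝ) (f : ℤ[X]) (m0 N : ℕ) (hA : Adm Λ f)
    (hl : 0 < f.leadingCoeff) (hm : m0 < PM f) (hNN : Real.exp Λ + 2 ≤ (N : ℝ)) (U : Finset ℕ)
    (hU : ∀ p ∈ U, p.Prime ∧ 2 * f.natDegree < p) :
    |(((AA f m0 N).filter (fun m : ℕ => ∀ p ∈ U, p ∣ val f m)).card : ℝ) -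
      (N : ℝ) / PM f * ∏ p ∈ U, gf f p| ≤ ∏ p ∈ U, (rho f p : ℝ) := by
  have hpf : (∏ p ∈ U, p).primeFactors = U := Nat.primeFactors_prod (fun p hp => (hU p hp).1)
  have h0 : (∏ p ∈ U, p) ≠ 0 := Finset.prod_ne_zero_iff.mpr (fun p hp => (hU p hp).1.ne_zero)
  have h := hN f m0 N (∏ p ∈ U, p) hm (cu_sqf U (fun p hp => (hU p hp).1)) (fun p hp hd => by
    have : p ∈ (∏ p ∈ U, p).primeFactors := Nat.mem_primeFactors.mpr ⟨hp, hd, h0⟩
    rw [hpf] at this
    exact (hU p this).2)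
  have hGG : GG (gf f) (∏ p ∈ U, p) = ∏ p ∈ U, gf f p := by
    unfold GG
    rw [hpf]
  rw [hGG, hpf] at h
  have hfil : (AA f m0 N).filter (fun m : ℕ => ∀ p ∈ U, p ∣ val f m) =
      (AA f m0 N).filter (fun m : ℕ => ((∏ p ∈ U, p : ℕ) : ℤ) ∣ f.eval (m : ℤ)) := by
    apply Finset.filter_congr
    intro m hmA
    have hm2 : N < m := by
      unfold AA at hmA
      exact (Finset.mem_Ioc.mp (Finset.mem_filter.mp hmA).1).1
    have hm3 : Real.exp Λ + 2 ≤ (m : ℝ) := hNN.trans (by exact_mod_cast hm2.le)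
    have hv := (hP Λ f hA hl m hm3).2.1
    rw [← cu_dvd U (fun p hp => (hU p hp).1), ← hv, Int.natCast_dvd_natCast]
  rw [hfil]
  exact h

lemma cu_rho (f : ℤ[X]) (p : ℕ) (hp : 2 * f.natDegree < p) : (rho f p : ℝ) = p * gf f p := by
  unfold gf
  rw [if_neg (by omega)]
  have : (p : ℝ) ≠ 0 := by
    have : 0 < p := by omega
    positivity
  field_simp

lemma cu_err (lam E : ℝ) (f : ℤ[X]) (w : ℕ) (F : Finset (Finset ℕ))
    (hF : ∀ T ∈ F, T ⊆ Qf f w ∧ ∑ p ∈ T, Real.log p ≤ lam)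
    (hE : ∑ p ∈ (range (w + 1)).filter Nat.Prime, gf f p ≤ E) :
    ∑ T ∈ F, ∏ p ∈ T, (rho f p : ℝ) ≤ Real.exp (lam + E) := by
  have hQ : ∀ p ∈ Qf f w, p.Prime ∧ 2 * f.natDegree < p ∧ p ≤ w := by
    intro p hp
    unfold Qf at hp
    rw [Finset.mem_filter, Finset.mem_Ioc] at hp
    exact ⟨hp.2, hp.1.1, hp.1.2⟩
  have h1 : ∀ T ∈ F, ∏ p ∈ T, (rho f p : ℝ) ≤ Real.exp lam * ∏ p ∈ T, gf f p := by
    intro T hT
    have hT1 := hF T hT
    have e1 : ∏ p ∈ T, (rho f p : ℝ) = (∏ p ∈ T, (p : ℝ)) * ∏ p ∈ T, gf f p := by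
      rw [← Finset.prod_mul_distrib]
      exact Finset.prod_congr rfl fun p hp => cu_rho f p (hQ p (hT1.1 hp)).2.1
    have e2 : ∏ p ∈ T, (p : ℝ) = Real.exp (∑ p ∈ T, Real.log p) := by
      rw [Real.exp_sum]
      refine Finset.prod_congr rfl fun p hp => ?_
      rw [Real.exp_log]
      exact_mod_cast (hQ p (hT1.1 hp)).1.pos
    rw [e1, e2]
    exact mul_le_mul_of_nonneg_right (Real.exp_le_exp.mpr hT1.2)
      (Finset.prod_nonneg fun p _ => cu_gf0 f p)
  have h2 : ∑ T ∈ F, ∏ p ∈ T, gf f p ≤ Real.exp E := by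
    calc ∑ T ∈ F, ∏ p ∈ T, gf f p ≤ ∑ T ∈ (Qf f w).powerset, ∏ p ∈ T, gf f p := by
          apply Finset.sum_le_sum_of_subset_of_nonneg
          · intro T hT
            exact Finset.mem_powerset.mpr (hF T hT).1
          · intro T _ _
            exact Finset.prod_nonneg fun p _ => cu_gf0 f p
      _ = ∏ p ∈ Qf f w, (1 + gf f p) := (Finset.prod_one_add _).symm
      _ ≤ ∏ p ∈ Qf f w, Real.exp (gf f p) := by
          apply Finset.prod_le_prod
          · intro p _
            have := cu_gf0 f p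
            linarith
          · intro p _
            have := Real.add_one_le_exp (gf f p)
            linarith
      _ = Real.exp (∑ p ∈ Qf f w, gf f p) := (Real.exp_sum _ _).symm
      _ ≤ Real.exp E := by
          apply Real.exp_le_exp.mpr
          refine le_trans ?_ hE
          apply Finset.sum_le_sum_of_subset_of_nonneg
          · intro p hp
            rw [Finset.mem_filter, Finset.mem_range]
            exact ⟨by have := (hQ p hp).2.2; omega, (hQ p hp).1⟩
          · intro p _ _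
            exact cu_gf0 f p
  calc ∑ T ∈ F, ∏ p ∈ T, (rho f p : ℝ) ≤ ∑ T ∈ F, Real.exp lam * ∏ p ∈ T, gf f p :=
        Finset.sum_le_sum h1
    _ = Real.exp lam * ∑ T ∈ F, ∏ p ∈ T, gf f p := by rw [Finset.mul_sum]
    _ ≤ Real.exp lam * Real.exp E := mul_le_mul_of_nonneg_left h2 (Real.exp_pos _).le
    _ = Real.exp (lam + E) := (Real.exp_add _ _).symm

/-- the sum of the weights over the values divisible by the primes of `D` -/
lemma cu_main (hN : StCN) (hP : StPO) (Λ lam E : ℝ) (f : ℤ[X]) (m0 N w : ℕ) (hA : Adm Λ f)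
    (hl : 0 < f.leadingCoeff) (hm : m0 < PM f) (hNN : Real.exp Λ + 2 ≤ (N : ℝ))
    (F : Finset (Finset ℕ)) (hF : ∀ T ∈ F, T ⊆ Qf f w ∧ ∑ p ∈ T, Real.log p ≤ lam)
    (hE : ∑ p ∈ (range (w + 1)).filter Nat.Prime, gf f p ≤ E) (D : Finset ℕ)
    (hD : ∀ p ∈ D, p.Prime ∧ 2 * f.natDegree < p ∧ w < p) :
    |∑ m ∈ (AA f m0 N).filter (fun m : ℕ => ∀ p ∈ D, p ∣ val f m), tw F (val f m) -
      (N : ℝ) / PM f * (∏ p ∈ D, gf f p) * MW F (gf f)| ≤
      (∏ p ∈ D, (rho f p : ℝ)) * Real.exp (lam + E) := by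
  have hQ : ∀ p ∈ Qf f w, p.Prime ∧ 2 * f.natDegree < p ∧ p ≤ w := by
    intro p hp
    unfold Qf at hp
    rw [Finset.mem_filter, Finset.mem_Ioc] at hp
    exact ⟨hp.2, hp.1.1, hp.1.2⟩
  have e1 : ∑ m ∈ (AA f m0 N).filter (fun m : ℕ => ∀ p ∈ D, p ∣ val f m), tw F (val f m) =
      ∑ T ∈ F, (-1 : ℝ) ^ T.card *
        (((AA f m0 N).filter (fun m : ℕ => ∀ p ∈ D ∪ T, p ∣ val f m)).card : ℝ) := by
    simp_rw [cu_tw]
    rw [Finset.sum_comm]
    refine Finset.sum_congr rfl fun T _ => ?_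
    rw [← Finset.mul_sum, Finset.sum_boole, Finset.filter_filter]
    congr 3
    apply Finset.filter_congr
    intro m _
    constructor
    · rintro ⟨h1, h2⟩ p hp
      rcases Finset.mem_union.mp hp with h | h
      · exact h1 p h
      · exact h2 p h
    · intro h
      exact ⟨fun p hp => h p (Finset.mem_union_left _ hp), fun p hp => h p (Finset.mem_union_right _ hp)⟩
  have e2 : (N : ℝ) / PM f * (∏ p ∈ D, gf f p) * MW F (gf f) =
      ∑ T ∈ F, (-1 : ℝ) ^ T.card * ((N : ℝ) / PM f * ((∏ p ∈ D, gf f p) * ∏ p ∈ T, gf f p)) := by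
    unfold MW
    rw [Finset.mul_sum]
    refine Finset.sum_congr rfl fun T _ => ?_
    ring
  rw [e1, e2, ← Finset.sum_sub_distrib]
  refine (Finset.abs_sum_le_sum_abs _ _).trans ?_
  calc ∑ T ∈ F, |(-1 : ℝ) ^ T.card *
        (((AA f m0 N).filter (fun m : ℕ => ∀ p ∈ D ∪ T, p ∣ val f m)).card : ℝ) -
        (-1 : ℝ) ^ T.card * ((N : ℝ) / PM f * ((∏ p ∈ D, gf f p) * ∏ p ∈ T, gf f p))|
      ≤ ∑ T ∈ F, (∏ p ∈ D, (rho f p : ℝ)) * ∏ p ∈ T, (rho f p : ℝ) := by
        apply Finset.sum_le_sum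
        intro T hT
        have hdis : Disjoint D T := by
          rw [Finset.disjoint_left]
          intro p h1 h2
          have h3 := (hD p h1).2.2
          have h4 := (hQ p ((hF T hT).1 h2)).2.2
          omega
        have h := cu_cn hN hP Λ f m0 N hA hl hm hNN (D ∪ T) (by
          intro p hp
          rcases Finset.mem_union.mp hp with h | h
          · exact ⟨(hD p h).1, (hD p h).2.1⟩
          · have := hQ p ((hF T hT).1 h)
            exact ⟨this.1, this.2.1⟩)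
        rw [Finset.prod_union hdis, Finset.prod_union hdis] at h
        rw [← mul_sub, abs_mul, abs_pow, abs_neg, abs_one, one_pow, one_mul]
        exact h
    _ = (∏ p ∈ D, (rho f p : ℝ)) * ∑ T ∈ F, ∏ p ∈ T, (rho f p : ℝ) := by rw [Finset.mul_sum]
    _ ≤ _ := mul_le_mul_of_nonneg_left (cu_err lam E f w F hF hE)
        (Finset.prod_nonneg fun p _ => Nat.cast_nonneg _)

theorem hCU (hN : StCN) (hP : StPO) (hRO : StRO) : StCU := by
  intro Λ lam E f m0 N w F hA hl hm hNN hF hE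
  constructor
  · have h := cu_main hN hP Λ lam E f m0 N w hA hl hm hNN F hF hE ∅ (by simp)
    simpa using h
  · intro hup p hp hwp hdp
    have h := cu_main hN hP Λ lam E f m0 N w hA hl hm hNN F hF hE {p} (by
      intro q hq
      rw [Finset.mem_singleton] at hq
      subst hq
      exact ⟨hp, hdp, hwp⟩)
    simp only [Finset.mem_singleton, forall_eq, Finset.prod_singleton] at h
    have h1 : (((AA f m0 N).filter (fun m : ℕ => p ∣ val f m ∧ ∀ p' ∈ Qf f w, ¬ p' ∣ val f m)).card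
        : ℝ) ≤ ∑ m ∈ (AA f m0 N).filter (fun m : ℕ => p ∣ val f m), tw F (val f m) := by
      rw [← Finset.filter_filter, Finset.card_filter]
      push_cast
      apply Finset.sum_le_sum
      intro m _
      have h2 := hup (fun q => if q ∣ val f m then 1 else 0) (by
        intro q
        split <;> norm_num)
      have h3 : MW F (fun q => if q ∣ val f m then (1 : ℝ) else 0) = tw F (val f m) := by
        unfold MW tw
        rfl
      rw [h3] at h2
      refine le_trans (le_of_eq ?_) h2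
      have h4 : ∀ q : ℕ, (1 : ℝ) - (if q ∣ val f m then (1 : ℝ) else 0) =
          if ¬ q ∣ val f m then 1 else 0 := by
        intro q
        by_cases hq : q ∣ val f m <;> simp [hq]
      simp_rw [h4]
      rw [Finset.prod_ite_zero]
      simp
    refine h1.trans ?_
    have h5 := (abs_le.mp h).2
    have h6 : (rho f p : ℝ) * Real.exp (lam + E) ≤ (f.natDegree : ℝ) * Real.exp (lam + E) := by
      apply mul_le_mul_of_nonneg_right _ (Real.exp_pos _).le
      exact_mod_cast hRO Λ f hA p hp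
    linarith

end Pool.Agent.Helper16.UP
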