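import Pool.Agent.Helper9.UP.StS
import Pool.Agent.Helper18.TR.FM

/-!
# Project UP, module MN: the main term
-/

set_option autoImplicit false

noncomputable section

namespace Pool.Agent.Helper16.UP

open Finset Polynomial
open Pool.Agent.Helper9.UP
open Pool.Agent.Helper18.TR (idx Qi Yy StSym StEsymm StRange fm_exp fm_idx fm_prod)

lemma mn_exp : Real.exp (4 + 1 / 30) ≤ 60 := by
  have h1 : Real.exp 1 < 2.7182818286 := Real.exp_one_lt_d9
  have h2 : Real.exp (4 : ℝ) ≤ 54.6 := by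
    have : Real.exp (4 : ℝ) = Real.exp 1 ^ 4 := by
      rw [← Real.exp_nat_mul]; norm_num
    rw [this]
    calc Real.exp 1 ^ 4 ≤ 2.7182818286 ^ 4 := by gcongr
      _ ≤ 54.6 := by norm_num
  have h3 : Real.exp (1 / 30 : ℝ) ≤ 30 / 29 := by
    have h := Real.add_one_le_exp (-(1 / 30 : ℝ))
    rw [Real.exp_neg] at h
    have hp := Real.exp_pos (1 / 30 : ℝ)
    have h5 : (29 / 30 : ℝ) ≤ (Real.exp (1 / 30 : ℝ))⁻¹ := by linarith
    rw [le_inv_comm₀ (by norm_num) hp] at h5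
    refine h5.trans (by norm_num)
  rw [Real.exp_add]
  calc Real.exp 4 * Real.exp (1 / 30) ≤ 54.6 * (30 / 29) := by
        apply mul_le_mul h2 h3 (Real.exp_pos _).le (by norm_num)
    _ ≤ 60 := by norm_num

lemma mn_dec (G β : ℝ) (n : ℕ) (hG : 0 ≤ G) (hGβ : 60 * G ≤ β) (hn : (n : ℝ) = β + 1) :
    G ^ n / (n.factorial : ℝ) ≤ Real.exp (-(3 * β) - 3) * Real.exp (-(2 * G)) := by
  have hf : (0 : ℝ) < (n.factorial : ℝ) := by exact_mod_cast Nat.factorial_pos n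
  have h1 := Real.pow_div_factorial_le_exp (60 * G) (by positivity) n
  have h2 : Real.exp (60 * G) ≤ Real.exp n := Real.exp_le_exp.mpr (by linarith)
  have h3 : G ^ n / (n.factorial : ℝ) = ((60 * G) ^ n / (n.factorial : ℝ)) / 60 ^ n := by
    rw [mul_pow]; field_simp
  have h4 : G ^ n / (n.factorial : ℝ) ≤ Real.exp n / 60 ^ n := by
    rw [h3]
    gcongr
    exact h1.trans h2
  refine h4.trans ?_
  rw [div_le_iff₀ (by positivity)]
  have h5 : Real.exp ((n : ℝ) * (4 + 1 / 30)) ≤ 60 ^ n := by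
    rw [Real.exp_nat_mul]
    exact pow_le_pow_left₀ (Real.exp_pos _).le mn_exp n
  have h6 : Real.exp n = Real.exp (-(3 * β) - 3) * Real.exp (-(n / 30)) *
      Real.exp ((n : ℝ) * (4 + 1 / 30)) := by
    rw [← Real.exp_add, ← Real.exp_add]
    congr 1
    rw [hn]; ring
  rw [h6]
  have h7 : Real.exp (-((n : ℝ) / 30)) ≤ Real.exp (-(2 * G)) := by
    apply Real.exp_le_exp.mpr
    rw [hn]; linarith
  gcongr

lemma mn_eta (η : ℝ) (h0 : 0 ≤ η) (h1 : η ≤ 1 / 2) : Real.exp η ≤ 1 + 2 * η := by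
  have h := Real.add_one_le_exp (-η)
  rw [Real.exp_neg] at h
  have hp := Real.exp_pos η
  have h5 : 1 - η ≤ (Real.exp η)⁻¹ := by linarith
  rw [le_inv_comm₀ (by linarith) hp] at h5
  refine h5.trans ?_
  rw [inv_eq_one_div, div_le_iff₀ (by linarith)]
  nlinarith

theorem hMN (hF : StFC) (hS : StSym) (hE : StEsymm) : StMN := by
  intro w β Q g η hβ hg hG hη hη2
  have hη0 : 0 ≤ η := le_trans (Finset.sum_nonneg (fun i _ => (Real.exp_pos _).le)) hη
  obtain ⟨hd, f0, f1⟩ := hF w β Q g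
  have f1 := f1 hβ
  have hg1 : ∀ p ∈ Q, 0 ≤ g p ∧ g p ≤ 1 := fun p hp =>
    ⟨(hg p hp).1, (hg p hp).2.trans (by norm_num)⟩
  have hsubQ : ∀ i, ∀ p ∈ Qi w Q i, p ∈ Q := fun i p hp => (Finset.mem_filter.mp hp).1
  set G : ℕ → ℝ := fun i => ∏ p ∈ Qi w Q i, (1 - g p) with hGd
  set Y : ℕ → ℝ := fun i => Yy (β i) (Qi w Q i) g with hY
  set E : ℕ → ℝ := fun i => Pool.Agent.Helper18.TR.ee (β i + 1) (Qi w Q i) g with hEd
  set δ : ℕ → ℝ := fun i => Real.exp (-(3 * (β i : ℝ)) - 3) with hδ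
  have hGQ : ∏ p ∈ Q, (1 - g p) = ∏ i ∈ range (w + 1), G i := by
    rw [← Finset.prod_fiberwise_of_maps_to (t := range (w + 1)) (g := idx w)
      (fun p _ => fm_idx w p)]
    rfl
  have hs0 : ∀ i, 0 ≤ ∑ p ∈ Qi w Q i, g p := fun i =>
    Finset.sum_nonneg (fun p hp => (hg p (hsubQ i p hp)).1)
  have hGlow : ∀ i, Real.exp (-(2 * ∑ p ∈ Qi w Q i, g p)) ≤ G i := by
    intro i
    calc Real.exp (-(2 * ∑ p ∈ Qi w Q i, g p)) = Real.exp (∑ p ∈ Qi w Q i, -(2 * g p)) := by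
          rw [Finset.sum_neg_distrib, ← Finset.mul_sum]
      _ = ∏ p ∈ Qi w Q i, Real.exp (-(2 * g p)) := Real.exp_sum _ _
      _ ≤ ∏ p ∈ Qi w Q i, (1 - g p) := by
          apply Finset.prod_le_prod (fun _ _ => (Real.exp_pos _).le)
          intro p hp
          have h := hg p (hsubQ i p hp)
          exact fm_exp _ h.1 h.2
  have hGpos : ∀ i, 0 < G i := fun i => lt_of_lt_of_le (Real.exp_pos _) (hGlow i)
  have hδ0 : ∀ i, 0 ≤ δ i := fun i => (Real.exp_pos _).le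
  have hEδ : ∀ i ∈ range (w + 1), E i ≤ δ i * G i := by
    intro i hi
    have h2 := (hE (β i + 1) (Qi w Q i) g (fun p hp => (hg p (hsubQ i p hp)).1)).2
    have h3 := mn_dec (∑ p ∈ Qi w Q i, g p) (β i : ℝ) (β i + 1) (hs0 i) (hG i hi) (by push_cast; ring)
    exact h2.trans (h3.trans (mul_le_mul_of_nonneg_left (hGlow i) (hδ0 i)))
  have hY0 : ∀ i, G i ≤ Y i := fun i =>
    (hS (β i) (Qi w Q i) g (hβ i) (fun p hp => hg1 p (hsubQ i p hp))).1
  have hY1 : ∀ i, Y i ≤ G i + E i := fun i =>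
    (hS (β i) (Qi w Q i) g (hβ i) (fun p hp => hg1 p (hsubQ i p hp))).2
  have key := fm_prod (range (w + 1)) G Y E δ η (fun i _ => hGpos i) (fun i _ => hδ0 i)
    hEδ (fun i _ => hY0 i) (fun i _ => hY1 i) hη
  have hGp : 0 ≤ ∏ i ∈ range (w + 1), G i := Finset.prod_nonneg (fun i _ => (hGpos i).le)
  have hexp := mn_eta η hη0 hη2
  constructor
  · rw [f0, hGQ]
    exact key.1.trans (mul_le_mul_of_nonneg_right hexp hGp)
  · have hu : MW (fb0 w β Q ∪ fb1 w β Q) g = MW (fb0 w β Q) g + MW (fb1 w β Q) g := by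
      unfold MW
      exact Finset.sum_union hd
    rw [hu, f0, f1, hGQ]
    have h2 : (1 - 2 * η) * ∏ i ∈ range (w + 1), G i ≤
        (1 - η * Real.exp η) * ∏ i ∈ range (w + 1), G i := by
      apply mul_le_mul_of_nonneg_right _ hGp
      have : η * Real.exp η ≤ η * 2 := mul_le_mul_of_nonneg_left (by linarith) hη0
      linarith
    refine h2.trans (key.2.trans (le_of_eq ?_))
    rw [sub_eq_add_neg]

end Pool.Agent.Helper16.UP
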