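import Pool.Agent.Helper30.UP.St

set_option autoImplicit false

noncomputable section

/-! Project UP (helper30), module RES: restriction to a subspace. -/

namespace Pool.Agent.Helper16.UP

open Finset Pool.Agent.Helper30.UP
open scoped Classical

theorem hRES : StRES := by
  intro c n s W
  let b := Module.finBasis (ZMod 2) W
  let e : (Fin (Module.finrank (ZMod 2) W) → ZMod 2) ≃ₗ[ZMod 2] W := b.equivFun.symm
  refine ⟨Module.finrank (ZMod 2) W, fun i j => (b j : E c) ⬝ᵥ s i,
    W.subtype ∘ₗ (e : (Fin (Module.finrank (ZMod 2) W) → ZMod 2) →ₗ[ZMod 2] W), ?_, ?_, ?_, ?_⟩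
  · exact Subtype.val_injective.comp e.injective
  · rw [LinearMap.range_comp, LinearEquiv.range, Submodule.map_top, Submodule.range_subtype]
  · rw [← Nat.card_congr e.toEquiv, Nat.card_eq_fintype_card]
    simp
  · intro x' i
    have h1 : (W.subtype ∘ₗ (e : (Fin (Module.finrank (ZMod 2) W) → ZMod 2) →ₗ[ZMod 2] W)) x' =
        ∑ j, x' j • (b j : E c) := by
      show W.subtype (e x') = _
      have h2 : e x' = ∑ j, x' j • b j := b.equivFun_symm_apply x'
      rw [h2, map_sum]
      rfl
    rw [h1, sum_dotProduct]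
    unfold dotProduct
    refine sum_congr rfl fun j _ => ?_
    rw [mul_sum]
    refine sum_congr rfl fun k _ => ?_
    rw [Pi.smul_apply, smul_eq_mul, mul_assoc]

end Pool.Agent.Helper16.UP
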